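import Pool.Agent.Helper72_NA.Final

/-!
# Every Banach space failing the RNP has a renorming for which the norm-attaining operators from the
renormed space to itself are not dense
-/

set_option autoImplicit false

universe u

namespace Pool.Agent.Results.MP_af317d_an.RenormNotDense

/-- A subset `D` of a normed space is *dentable* if for every `ε > 0` there is `x ∈ D` that does not
lie in the closed convex hull of `D \ {y : ‖y - x‖ < ε}`. -/
def IsDentable {X : Type u} [NormedAddCommGroup X] [NormedSpace ℝ X] (D : Set X) : Prop :=
  ∀ ε : ℝ, 0 < ε → ∃ x ∈ D, x ∉ closure (convexHull ℝ (D \ Metric.ball x ε))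

/-- The Radon-Nikodym property: every nonempty closed bounded convex subset is dentable. -/
def HasRNP (X : Type u) [NormedAddCommGroup X] [NormedSpace ℝ X] : Prop :=
  ∀ C : Set X, C.Nonempty → IsClosed C → Bornology.IsBounded C → Convex ℝ C → IsDentable C

/-- Let `X` be a real or complex Banach space without the Radon-Nikodym property. Then there is a
Banach space `Y` which is (linearly and topologically) isomorphic to `X`, i.e. a renorming of `X`,
such that the set of norm-attaining operators on `Y` is not dense in the space of bounded operators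
on `Y`, for the operator norm. -/
theorem result {𝕜 : Type*} [RCLike 𝕜] {X : Type u} [NormedAddCommGroup X] [NormedSpace 𝕜 X]
    [NormedSpace ℝ X] [IsScalarTower ℝ 𝕜 X] [CompleteSpace X] (hX : ¬ HasRNP X) :
    ∃ (Y : Type u) (_ : NormedAddCommGroup Y) (_ : NormedSpace 𝕜 Y), CompleteSpace Y ∧
      Nonempty (X ≃L[𝕜] Y) ∧
      ¬ Dense {T : Y →L[𝕜] Y | ∃ y : Y, ‖y‖ = 1 ∧ ‖T y‖ = ‖T‖} := by
  unfold HasRNP IsDentable at hX
  push Not at hX
  obtain ⟨C, hne, -, hb, -, ε, hε, hd⟩ := hX
  exact Pool.Agent.Helper72_NA.main hne hb hε hd

end Pool.Agent.Results.MP_af317d_an.RenormNotDense
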